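import Pool.Agent.Helper82.LPMain

set_option autoImplicit false

namespace Pool.Agent.Results.MP_ab0e6d_lc.ProperInclusion

open Pool.Agent.Helper82.LP

/-- ET0L is properly contained in LP-E0L: every ET0L language is a left permitting E0L language, and
some left permitting E0L language (even a propagating one, over two letters) is not an ET0L
language. -/
theorem result :
    (∀ (T : Type) [Finite T] (L : Language T), IsET0L L → IsLPE0L L) ∧
      ∃ L : Language Bool, IsLPEP0L L ∧ IsLPE0L L ∧ ¬ IsET0L L :=
  ⟨fun _ _ _ h => isLPE0L_of_isET0L h, K, isLPEP0L_K, isLPEP0L_K.isLPE0L, not_isET0L_K⟩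

end Pool.Agent.Results.MP_ab0e6d_lc.ProperInclusion
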